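import Pool.Agent.helper33.SP.SpecC1S

/-! # Project sp, module UJ8: Jensen -/

namespace TP

open DP MeasureTheory

noncomputable section

instance UJ8_prob : IsProbabilityMeasure P1 := by
  unfold P1
  infer_instance

/-- Extension of a finite configuration. -/
def UJ8_ext (Λ : Finset V) (s : Λ → Bool) (v : V) : Bool := if h : v ∈ Λ then s ⟨v, h⟩ else false

theorem UJ8_ext_restrict (Λ : Finset V) (b : V → Bool) (v : V) (hv : v ∈ Λ) :
    UJ8_ext Λ (Λ.restrict b) v = b v := by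
  unfold UJ8_ext
  rw [dif_pos hv]
  rfl

theorem UJ8_comp (Λ : Finset V) (h : (V → Bool) → ℝ) (hh : DepR h (Λ : Set V)) :
    h = (fun s => h (UJ8_ext Λ s)) ∘ (Λ.restrict : (V → Bool) → (Λ → Bool)) := by
  ext b
  exact hh _ _ fun v hv => (UJ8_ext_restrict Λ b v hv).symm

theorem UJ8_int (Λ : Finset V) (h : (V → Bool) → ℝ) (hh : DepR h (Λ : Set V)) : Integrable h P1 := by
  rw [UJ8_comp Λ h hh]
  have hm : Measurable (Λ.restrict : (V → Bool) → (Λ → Bool)) := Finset.measurable_restrict Λ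
  have : IsFiniteMeasure (P1.map (Λ.restrict : (V → Bool) → (Λ → Bool))) := by
    infer_instance
  have h1 : Integrable (fun s : Λ → Bool => h (UJ8_ext Λ s)) (P1.map Λ.restrict) := Integrable.of_finite
  exact h1.comp_measurable hm

/-- Integrals of functions of finitely many coins are finite averages. -/
theorem UJ8_avg (Λ : Finset V) : ∃ w : (Λ → Bool) → ℝ, (∀ s, 0 ≤ w s) ∧ ∑ s, w s = 1 ∧
    ∀ h : (V → Bool) → ℝ, DepR h (Λ : Set V) → ∫ b, h b ∂P1 = ∑ s, w s * h (UJ8_ext Λ s) := by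
  have hm : Measurable (Λ.restrict : (V → Bool) → (Λ → Bool)) := Finset.measurable_restrict Λ
  have key : ∀ h : (V → Bool) → ℝ, DepR h (Λ : Set V) →
      ∫ b, h b ∂P1 = ∑ s, (P1.map (Λ.restrict : (V → Bool) → (Λ → Bool))).real {s} * h (UJ8_ext Λ s) := by
    intro h hh
    have h1 : ∫ b, h b ∂P1 = ∫ b, (fun s => h (UJ8_ext Λ s)) (Λ.restrict b) ∂P1 := by
      congr 1
      exact UJ8_comp Λ h hh
    have h2 : ∫ b, (fun s => h (UJ8_ext Λ s)) (Λ.restrict b) ∂P1 =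
        ∫ s, h (UJ8_ext Λ s) ∂(P1.map (Λ.restrict : (V → Bool) → (Λ → Bool))) :=
      (integral_map (f := fun s => h (UJ8_ext Λ s)) hm.aemeasurable
        (measurable_of_finite _).aestronglyMeasurable).symm
    rw [h1, h2, integral_fintype Integrable.of_finite]
    simp only [smul_eq_mul]
  refine ⟨fun s => (P1.map (Λ.restrict : (V → Bool) → (Λ → Bool))).real {s}, fun s => measureReal_nonneg,
    ?_, key⟩
  have h1 := key (fun _ => 1) (fun _ _ _ => rfl)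
  simpa using h1.symm

theorem UJ8_mx (Λ : Set V) (g : (V → Bool) → ℝ) (hg : DepR g Λ) (U : Set V) (b₁ b₂ c₁ c₂ : V → Bool)
    (h1 : ∀ v ∈ Λ, b₁ v = b₂ v) (h2 : ∀ v ∈ Λ, c₁ v = c₂ v) : g (mx U b₁ c₁) = g (mx U b₂ c₂) := by
  refine hg _ _ fun v hv => ?_
  unfold mx
  split_ifs
  · exact h2 v hv
  · exact h1 v hv

theorem UJ8_depr_av (Λ : Set V) (g : (V → Bool) → ℝ) (hg : DepR g Λ) (U : Set V) : DepR (av U g) Λ := by
  intro b₁ b₂ h
  unfold av
  congr 1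
  ext b'
  exact UJ8_mx Λ g hg U b₁ b₂ b' b' h fun v _ => rfl

theorem UJ8_depr_dl (Λ : Set V) (g : (V → Bool) → ℝ) (hg : DepR g Λ) (U : Set V) : DepR (dl U g) Λ := by
  intro b₁ b₂ h
  unfold dl
  rw [hg b₁ b₂ h, UJ8_depr_av Λ g hg U b₁ b₂ h]

theorem UJ8_depr_dls (Λ : Set V) (A : ℕ → Set V) : ∀ (J : ℕ) (g : (V → Bool) → ℝ), DepR g Λ →
    DepR (dls A J g) Λ
  | 0, _, hg => hg
  | J + 1, g, hg => UJ8_depr_dls Λ A J (dl (A J) g) (UJ8_depr_dl Λ g hg (A J))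

/-- Linearity. -/
theorem UJ8_dl_sum (Λ : Finset V) {ι : Type} [Fintype ι] (w : ι → ℝ) (H : ι → (V → Bool) → ℝ)
    (hH : ∀ s, DepR (H s) (Λ : Set V)) (U : Set V) :
    dl U (fun b => ∑ s, w s * H s b) = fun b => ∑ s, w s * dl U (H s) b := by
  ext b
  unfold dl av
  rw [integral_finsetSum]
  · rw [← Finset.sum_sub_distrib]
    refine Finset.sum_congr rfl fun s _ => ?_
    rw [integral_const_mul]
    ring
  · intro s _
    refine Integrable.const_mul ?_ _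
    refine UJ8_int Λ _ fun b₁ b₂ h => ?_
    exact UJ8_mx _ _ (hH s) U b b b₁ b₂ (fun _ _ => rfl) h

theorem UJ8_dls_sum (Λ : Finset V) {ι : Type} [Fintype ι] (w : ι → ℝ) (A : ℕ → Set V) :
    ∀ (J : ℕ) (H : ι → (V → Bool) → ℝ), (∀ s, DepR (H s) (Λ : Set V)) →
    dls A J (fun b => ∑ s, w s * H s b) = fun b => ∑ s, w s * dls A J (H s) b
  | 0, _, _ => rfl
  | J + 1, H, hH => by
    show dls A J (dl (A J) (fun b => ∑ s, w s * H s b)) = _
    rw [UJ8_dl_sum Λ w H hH (A J)]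
    exact UJ8_dls_sum Λ w A J (fun s => dl (A J) (H s)) fun s => UJ8_depr_dl _ _ (hH s) _

theorem UJ8 : UJ8_stmt := by
  rintro J A U g B ⟨Λ, hg⟩ hB
  obtain ⟨w, hw0, hw1, hw⟩ := UJ8_avg Λ
  set H : (Λ → Bool) → (V → Bool) → ℝ := fun s b => g b - g (mx U b (UJ8_ext Λ s)) with hH
  have hHd : ∀ s, DepR (H s) (Λ : Set V) := by
    intro s b₁ b₂ h
    show g b₁ - g (mx U b₁ _) = g b₂ - g (mx U b₂ _)
    rw [hg b₁ b₂ h, UJ8_mx _ g hg U b₁ b₂ _ _ h fun _ _ => rfl]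
  have h1 : dl U g = fun b => ∑ s, w s * H s b := by
    ext b
    unfold dl av
    rw [hw (fun b' => g (mx U b b')) (fun b₁ b₂ h => UJ8_mx _ g hg U b b b₁ b₂ (fun _ _ => rfl) h)]
    simp only [hH, mul_sub, Finset.sum_sub_distrib]
    rw [← Finset.sum_mul, hw1, one_mul]
  rw [h1, UJ8_dls_sum Λ w A J H hHd]
  have h2 : ∀ b, (∑ s, w s * dls A J (H s) b) ^ 2 ≤ ∑ s, w s * (dls A J (H s) b) ^ 2 := by
    intro b
    have h3 := (even_two.convexOn_pow (𝕜 := ℝ)).map_sum_le (t := Finset.univ) (w := w)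
      (p := fun s => dls A J (H s) b) (fun s _ => hw0 s) hw1 (fun _ _ => Set.mem_univ _)
    simpa [smul_eq_mul] using h3
  have hd : ∀ s, DepR (fun b => w s * (dls A J (H s) b) ^ 2) (Λ : Set V) := by
    intro s b₁ b₂ h
    show w s * _ = w s * _
    rw [UJ8_depr_dls _ A J (H s) (hHd s) b₁ b₂ h]
  calc ∫ b, (∑ s, w s * dls A J (H s) b) ^ 2 ∂P1
      ≤ ∫ b, ∑ s, w s * (dls A J (H s) b) ^ 2 ∂P1 := by
        refine integral_mono ?_ ?_ h2
        · refine UJ8_int Λ _ fun b₁ b₂ h => ?_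
          show (∑ s, w s * dls A J (H s) b₁) ^ 2 = (∑ s, w s * dls A J (H s) b₂) ^ 2
          congr 1
          refine Finset.sum_congr rfl fun s _ => ?_
          rw [UJ8_depr_dls _ A J (H s) (hHd s) b₁ b₂ h]
        · exact integrable_finsetSum _ fun s _ => UJ8_int Λ _ (hd s)
    _ = ∑ s, w s * ∫ b, (dls A J (H s) b) ^ 2 ∂P1 := by
        rw [integral_finsetSum _ fun s _ => UJ8_int Λ _ (hd s)]
        refine Finset.sum_congr rfl fun s _ => ?_
        rw [integral_const_mul]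
    _ ≤ ∑ s, w s * B := Finset.sum_le_sum fun s _ => mul_le_mul_of_nonneg_left (hB _) (hw0 s)
    _ = B := by rw [← Finset.sum_mul, hw1, one_mul]

end

end TP
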