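import Pool.Agent.helper33.SP.SpecC2S

/-!
# Project sp, piece C2S: module VA7 (properties of the weights)
-/

namespace TP

open DP MeasureTheory

theorem VA7_br (x v : V) : sd x (br v) ≤ sd x v + 1 ∧ sd x v ≤ sd x (br v) + 1 := by
  unfold br sd
  split_ifs with h
  · omega
  · simp only
    omega

theorem VA7_pr (F : Set (V → Bool)) : 0 ≤ Pr F ∧ Pr F ≤ 1 := by
  unfold Pr
  haveI : IsProbabilityMeasure P1 := by
    unfold P1
    infer_instance
  exact ⟨measureReal_nonneg, measureReal_le_one⟩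

theorem VA7_flp_comm (B B' : Set V) (b : V → Bool) : flp B (flp B' b) = flp B' (flp B b) := by
  funext v
  unfold flp
  by_cases h1 : v ∈ B <;> by_cases h2 : v ∈ B' <;> simp [h1, h2]

theorem VA7 (h1 : VA1_stmt) (h5 : VA5_stmt) (h13 : UJ13_stmt) : VA7_stmt := by
  intro z p h g hz hp hg hh
  obtain ⟨a1, -, -, a4, -, -⟩ := h1
  obtain ⟨-, -, b3, -, -, -⟩ := h5 z p h g hz hp hg hh
  -- locality
  obtain ⟨c1, c2, -, -⟩ := h13 0 z p h g hp hh
  have hgd : gdE 0 z p h g = gts z p h g := by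
    ext b
    unfold gdE
    simp only [Set.mem_setOf_eq]
    exact ⟨fun hb => hb.1, fun hb => ⟨hb, (VA7_pr _).1⟩⟩
  rw [hgd] at c1
  obtain ⟨Λ₁, hΛ₁, hd₁⟩ := c1
  obtain ⟨Λ₂, hΛ₂, hd₂⟩ := c2
  have key : ∀ b b' : V → Bool, (∀ v ∈ Λ₁ ∪ Λ₂, b (br v) = b' (br v)) →
      wpar z p h g b = wpar z p h g b' := by
    intro b b' hb
    have e1 : b ∈ gts z p h g ↔ b' ∈ gts z p h g :=
      hd₁ b b' fun v hv => hb v (Finset.mem_union_left _ hv)
    have e2 : b ∈ thr z p h g ↔ b' ∈ thr z p h g :=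
      hd₂ b b' fun v hv => hb v (Finset.mem_union_right _ hv)
    have e3 : cpr (Ag z p h) (thr z p h g) (flp (fI z p) b) =
        cpr (Ag z p h) (thr z p h g) (flp (fI z p) b') := by
      unfold cpr
      congr 1
      ext b''
      simp only [Set.mem_setOf_eq]
      apply hd₂
      intro v hv
      have hv' := hb v (Finset.mem_union_right _ hv)
      unfold mx flp
      rw [hv']
    unfold wpar
    rw [e3]
    congr 2
    by_cases hm : b ∈ gts z p h g ∩ thr z p h g
    · rw [Set.indicator_of_mem hm, Set.indicator_of_mem (by exact ⟨e1.mp hm.1, e2.mp hm.2⟩)]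
      rfl
    · rw [Set.indicator_of_notMem hm, Set.indicator_of_notMem (by
        rintro ⟨g1, g2⟩
        exact hm ⟨e1.mpr g1, e2.mpr g2⟩)]
  have hsub : ∀ v ∈ Λ₁ ∪ Λ₂, v ∈ ann z (2 ^ (p - g - 1)) (2 ^ (p + h + g + 1)) := by
    intro v hv
    rcases Finset.mem_union.mp hv with hv | hv
    · exact hΛ₁ hv
    · exact hΛ₂ hv
  have hcoin : ∀ v ∈ Λ₁ ∪ Λ₂, 2 ^ (p - g - 2) < sd z (br v) ∧ sd z (br v) < 2 ^ (p + h + g + 2) := by
    intro v hv
    have hv1 := hsub v hv
    have hv2 : 2 ^ (p - g - 1) ≤ sd z v ∧ sd z v ≤ 2 ^ (p + h + g + 1) := hv1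
    have hv3 := VA7_br z v
    obtain ⟨k, hk⟩ : ∃ k, p - g - 2 = k + 1 := ⟨p - g - 3, by omega⟩
    have hk1 : p - g - 1 = k + 2 := by omega
    have hk2 : p + h + g + 2 = (p + h + g + 1) + 1 := by omega
    have hk3 : 1 ≤ 2 ^ k := Nat.one_le_two_pow
    have hk4 : 2 ≤ 2 ^ (p + h + g + 1) := by
      calc 2 = 2 ^ 1 := rfl
        _ ≤ 2 ^ (p + h + g + 1) := Nat.pow_le_pow_right (by norm_num) (by omega)
    rw [hk1, pow_succ, pow_succ] at hv2
    rw [hk, pow_succ, hk2, pow_succ (n := p + h + g + 1)]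
    omega
  refine ⟨?_, ⟨Λ₁ ∪ Λ₂, ?_, key⟩, ?_, ?_⟩
  · intro b
    have hc := VA7_pr {b' | mx (Ag z p h) (flp (fI z p) b) b' ∈ thr z p h g}
    have hc' : 0 ≤ cpr (Ag z p h) (thr z p h g) (flp (fI z p) b) ∧
        cpr (Ag z p h) (thr z p h g) (flp (fI z p) b) ≤ 1 := hc
    have hi : 0 ≤ (gts z p h g ∩ thr z p h g).indicator (1 : (V → Bool) → ℝ) b ∧
        (gts z p h g ∩ thr z p h g).indicator (1 : (V → Bool) → ℝ) b ≤ 1 := by
      by_cases hm : b ∈ gts z p h g ∩ thr z p h g
      · rw [Set.indicator_of_mem hm]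
        simp
      · rw [Set.indicator_of_notMem hm]
        simp
    unfold wpar
    set u := (gts z p h g ∩ thr z p h g).indicator (1 : (V → Bool) → ℝ) b
    set w := cpr (Ag z p h) (thr z p h g) (flp (fI z p) b)
    have h1 : 0 ≤ u * w := mul_nonneg hi.1 hc'.1
    have h2 : u * w ≤ 1 := mul_le_one₀ hi.2 hc'.1 hc'.2
    constructor <;> nlinarith
  · intro v hv
    exact hsub v (by exact_mod_cast hv)
  · intro b b' hb
    constructor
    · apply key
      intro v hv
      exact hb _ (hcoin v hv).1 (hcoin v hv).2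
    · unfold av
      congr 1
      funext b''
      apply key
      intro v hv
      have := hb _ (hcoin v hv).1 (hcoin v hv).2
      unfold mx
      rw [this]
  · intro B b hB
    obtain ⟨g1, g2⟩ := b3 B b hB
    have e3 : cpr (Ag z p h) (thr z p h g) (flp (fI z p) (flp B b)) =
        cpr (Ag z p h) (thr z p h g) (flp (fI z p) b) := by
      rw [VA7_flp_comm]
      set x := flp (fI z p) b with hx
      unfold cpr
      have hset : {b' | mx (Ag z p h) (flp B x) b' ∈ thr z p h g} =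
          {b' | flp B b' ∈ {b'' | mx (Ag z p h) x b'' ∈ thr z p h g}} := by
        ext b'
        simp only [Set.mem_setOf_eq]
        have e : mx (Ag z p h) (flp B x) b' = flp B (mx (Ag z p h) x (flp B b')) := by
          funext v
          unfold mx flp
          by_cases k1 : v ∈ Ag z p h <;> by_cases k2 : v ∈ B <;> simp [k1, k2]
        rw [e]
        exact (b3 B _ hB).2
      rw [hset]
      apply a1
      refine ⟨Λ₂.image br, ?_⟩
      intro c c' hc
      simp only [Set.mem_setOf_eq]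
      apply hd₂
      intro v hv
      have hv' : c (br v) = c' (br v) := hc (br v) (by
        rw [Finset.coe_image]
        exact ⟨v, hv, rfl⟩)
      unfold mx
      rw [hv']
    unfold wpar
    rw [e3]
    congr 2
    by_cases hm : b ∈ gts z p h g ∩ thr z p h g
    · rw [Set.indicator_of_mem hm, Set.indicator_of_mem (by exact ⟨g1.mpr hm.1, g2.mpr hm.2⟩)]
      rfl
    · rw [Set.indicator_of_notMem hm, Set.indicator_of_notMem (by
        rintro ⟨k1, k2⟩
        exact hm ⟨g1.mp k1, g2.mp k2⟩)]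

end TP
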