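import Pool.Agent.helper95.SP.SpecCH

/-! # Project sp, module LQ: locality and inclusions of the events `F4`, `S4`, `B4` -/

namespace TP

open DP MeasureTheory

namespace K

theorem LQ_std_congr (x : V) (j m n : ℕ) (D : Dat) (hD : ∀ k, {v | sd x v < m} ⊆ D.N k)
    (c c' : V → Bool) (h : ∀ v ∈ ann x m n, c v = c' v) : Std c j true x n D ↔ Std c' j true x n D := by
  have hsub : ∀ k : Bool, ∀ A : Set V, HS true x n \ (D.N k ∪ A) ⊆ ann x m n := by
    rintro k A v ⟨hv, hv'⟩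
    refine ⟨?_, hv⟩
    by_contra hlt
    exact hv' (Or.inl (hD k (not_le.mp hlt)))
  have key : ∀ (k : Bool) (A : Set V) (p u : V),
      Conn c k (HS true x n \ (D.N k ∪ A)) p u ↔ Conn c' k (HS true x n \ (D.N k ∪ A)) p u :=
    fun k A p u => Conn.congr fun v hv => h v (hsub k A hv)
  unfold Std Mrk MrkC
  simp only [key]

theorem LQ (hAM : DP.AM_stmt) (hMF : DP.MF_stmt) (hSF : DP.SF_stmt) (hFA : DP.FA_stmt) : LQ_stmt := by
  refine ⟨?_, ?_, ?_, ?_, ?_, ?_⟩
  · intro x a b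
    refine Loc.ev (ann_finite x _ _) fun c c' h => ?_
    have key : ∀ u v : V, Conn c true (ann x (2 ^ a) (2 ^ b)) u v ↔
        Conn c' true (ann x (2 ^ a) (2 ^ b)) u v := fun u v => Conn.congr h
    unfold four twoCl
    simp only [key]
  · intro x t i _
    refine Loc.ev (ann_finite x _ _) fun c c' h => ?_
    exact LQ_std_congr x 4 (2 ^ t) (2 ^ i) _ (fun k v hv => hv) c c' h
  · intro x a b _
    refine Loc.ev (ann_finite x _ _) fun c c' h => ?_
    exact LQ_std_congr x 4 (2 ^ a) (2 ^ b) (Dmark 4 x (2 ^ a)) (fun k v hv => Or.inl hv) c c' h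
  · intro x a a' b' b h1 h2 h3 β hβ
    exact hAM (col β) 4 x (2 ^ a) (2 ^ a') (2 ^ b') (2 ^ b) (Or.inr rfl)
      (Nat.pow_le_pow_right (by norm_num) h1) (Nat.pow_le_pow_right (by norm_num) h2)
      (Nat.pow_le_pow_right (by norm_num) h3) hβ
  · intro x t i hx hi hti β hβ
    have h64 : 64 ≤ 2 ^ i := le_trans (by norm_num) (Nat.pow_le_pow_right (show 0 < 2 by norm_num) hi)
    have h1 := hSF (col β) 4 true x (2 ^ i) _ (Or.inr rfl) h64 hβ
    exact (hFA (col β) 4 x (2 ^ t) (2 ^ i) (Or.inr rfl) hx Nat.one_le_two_pow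
      (Nat.pow_lt_pow_right (by norm_num) hti)).1.mp h1
  · intro x a b hx ha hab β hβ
    have h64 : 64 ≤ 2 ^ a := le_trans (by norm_num) (Nat.pow_le_pow_right (show 0 < 2 by norm_num) ha)
    have hab' : 2 * 2 ^ a ≤ 2 ^ b := by
      rw [← pow_succ']
      exact Nat.pow_le_pow_right (by norm_num) hab
    have h1 := hSF (col β) 4 true x (2 ^ b) _ (Or.inr rfl) (by omega) hβ
    exact (hMF (col β) 4 x (2 ^ a) (2 ^ b) (Or.inr rfl) hx h64 hab').1 h1

end K

end TP
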