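import Pool.Agent.helper49.SP.SpecAS

/-! # Project sp, module M1: the threshold argument -/

namespace TP

open DP MeasureTheory

/-- Centre in units. -/
def M1_z (u : ℕ) (x : V) : ℤ × ℤ := (x.1 / (u : ℤ), x.2 / (u : ℤ))

theorem M1_z_eq (u : ℕ) (hu : 0 < u) (z : ℤ × ℤ) : M1_z u ((z.1 * (u : ℤ), z.2 * (u : ℤ)) : V) = z := by
  have h : (u : ℤ) ≠ 0 := by exact_mod_cast hu.ne'
  unfold M1_z
  simp only [Int.mul_ediv_cancel _ h]

theorem M1_nc {α : Type} (G : Finset α) (p : α → Prop) [DecidablePred p] :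
    (G.filter p).card = Set.ncard {a | a ∈ G ∧ p a} := by
  rw [← Set.ncard_coe_finset, Finset.coe_filter]

open Classical in
theorem M1_countP {α : Type} (G : Finset α) (p : α → Prop) :
    (G.toList.countP fun a => decide (p a)) = Set.ncard {a | a ∈ G ∧ p a} := by
  rw [← M1_nc, Finset.card_def, Finset.filter_val, ← Multiset.countP_eq_card_filter,
    ← Multiset.coe_countP, Finset.coe_toList]

theorem M1_a4_le (p q : ℕ) : a4 p q ≤ 1 := by
  have : IsProbabilityMeasure P1 := by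
    unfold P1
    infer_instance
  exact measureReal_le_one

open Classical in
theorem M1_sat (hF1 : F1_stmt) (u : ℕ) (X : Set V) (G : Finset (ℤ × ℤ)) (ψ : ℤ × ℤ → Form) (T : ℕ) :
    (satC u X (TEST G.toList ψ T) ↔ T ≤ Set.ncard {z | z ∈ G ∧ (satC u X (fHit z) ∧ satC u X (ψ z))}) ∧
    (satO u X (TEST G.toList ψ T) ↔ T ≤ Set.ncard {z | z ∈ G ∧ (satO u X (fHit z) ∧ satO u X (ψ z))}) := by
  obtain ⟨h1, -, -⟩ := hF1 u X
  have h2 := h1 (G.toList.map fun z => .and (fHit z) (ψ z)) T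
  rw [List.countP_map, List.countP_map] at h2
  have h3 := M1_countP G (fun z => satC u X (.and (fHit z) (ψ z)))
  have h4 := M1_countP G (fun z => satO u X (.and (fHit z) (ψ z)))
  constructor
  · rw [TEST, h2.1]
    exact ⟨fun h => h.trans h3.le, fun h => h.trans h3.ge⟩
  · rw [TEST, h2.2]
    exact ⟨fun h => h.trans h4.le, fun h => h.trans h4.ge⟩

theorem M1 (hPAR : PAR_stmt) (hF1 : F1_stmt) (hF2 : F2_stmt) (hB1 : B1_stmt) (hB2 : B2_stmt)
    (hB3 : B3_stmt) (hB4 : B4_stmt) : M1_stmt := by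
  classical
  intro i k e κ δ η ψ hei he hκ hδ hη ha hemp hU3 hψ
  set u : ℕ := 2 ^ (i - e) with hu
  have hu1 : 1 ≤ u := Nat.one_le_two_pow
  have hu0 : 0 < u := hu1
  set a : ℝ := a4 (i - e) (i - k) with ha4
  have ha1 : a ≤ 1 := M1_a4_le _ _
  set GBs := GB i k (i - e) with hGBs
  obtain ⟨hcard, hGB⟩ := hB4 i k e hei he
  obtain ⟨hmono, hsub, hrange, hcompl, -⟩ := hB1 hPAR i
  obtain ⟨hmono', -, hrange'⟩ := hB2 i
  have h4e : (0 : ℝ) < 4 ^ e := by positivity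
  have hT0 : 0 < κ * (4 ^ e * a) / 2 := by positivity
  set T : ℕ := ⌈κ * (4 ^ e * a) / 2⌉₊ with hT
  set G : Finset (ℤ × ℤ) := GBs.image (M1_z u) with hG
  -- centres
  have hzx : ∀ x ∈ GBs, x = ((M1_z u x).1 * (u : ℤ), (M1_z u x).2 * (u : ℤ)) ∧
      0 ≤ (M1_z u x).1 ∧ (M1_z u x).1 ≤ 2 * 2 ^ e ∧ 0 ≤ (M1_z u x).2 ∧ (M1_z u x).2 ≤ 2 * 2 ^ e := by
    intro x hx
    obtain ⟨z, hz, h1, h2, h3, h4, -⟩ := hGB x hx
    have hz' : M1_z u x = z := by
      rw [hz]
      exact M1_z_eq u hu0 z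
    rw [hz']
    exact ⟨hz, h1, h2, h3, h4⟩
  have hinj : ∀ x ∈ GBs, ∀ y ∈ GBs, M1_z u x = M1_z u y → x = y := by
    intro x hx y hy h
    rw [(hzx x hx).1, (hzx y hy).1, h]
  -- cards over G and over GBs
  have hcardG : ∀ p : ℤ × ℤ → Prop, Set.ncard {z | z ∈ G ∧ p z} =
      Set.ncard {x | x ∈ GBs ∧ p (M1_z u x)} := by
    intro p
    have h1 : {z | z ∈ G ∧ p z} = M1_z u '' {x | x ∈ GBs ∧ p (M1_z u x)} := by
      ext z
      constructor
      · rintro ⟨h2, h3⟩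
        rw [hG, Finset.mem_image] at h2
        obtain ⟨x, hx, rfl⟩ := h2
        exact ⟨x, ⟨hx, h3⟩, rfl⟩
      · rintro ⟨x, ⟨hx, h3⟩, rfl⟩
        exact ⟨Finset.mem_image_of_mem _ hx, h3⟩
    rw [h1, Set.InjOn.ncard_image]
    intro x hx y hy h
    exact hinj x hx.1 y hy.1 h
  have hfinS : ∀ p : V → Prop, {x | x ∈ GBs ∧ p x}.Finite := fun p =>
    (Finset.finite_toSet GBs).subset fun x hx => hx.1
  refine ⟨G, T, ?_, ?_, ?_, ?_⟩
  · intro z hz
    rw [hG, Finset.mem_image] at hz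
    obtain ⟨x, hx, rfl⟩ := hz
    exact (hzx x hx).2
  · have h1 : (T : ℝ) < κ * (4 ^ e * a) / 2 + 1 := Nat.ceil_lt_add_one hT0.le
    have h2 : κ * (4 ^ e * a) / 2 ≤ κ * 4 ^ e := by
      have h3 : κ * (4 ^ e * a) ≤ κ * 4 ^ e := by
        apply mul_le_mul_of_nonneg_left _ hκ.le
        calc (4 : ℝ) ^ e * a ≤ 4 ^ e * 1 := mul_le_mul_of_nonneg_left ha1 h4e.le
          _ = 4 ^ e := mul_one _
      have h4 : 0 < κ * 4 ^ e := by positivity
      linarith [mul_pos hκ (mul_pos h4e ha)]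
    linarith
  · -- spectral sample
    obtain ⟨B, hB⟩ : ∃ B : V → Set V → Prop,
        B = fun x X => (∃ v ∈ X, sd x v ≤ u) ∧ ¬ satC u X (ψ (M1_z u x)) := ⟨_, rfl⟩
    have hmarkov := (hB3 i GBs B (κ * (4 ^ e * a) / 2) hT0).1
    simp only [M1_nc] at hmarkov
    have hsum : (∑ x ∈ GBs, PS i (B x)) / (κ * (4 ^ e * a) / 2) ≤ 32 * δ / κ := by
      have h1 : ∑ x ∈ GBs, PS i (B x) ≤ ∑ x ∈ GBs, δ * a := by
        refine Finset.sum_le_sum fun x hx => ?_
        rw [hB]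
        exact (hψ (M1_z u x) x (hzx x hx).1 hx).1
      rw [Finset.sum_const, nsmul_eq_mul] at h1
      have h2 : (GBs.card : ℝ) * (δ * a) ≤ 16 * 4 ^ e * (δ * a) :=
        mul_le_mul_of_nonneg_right hcard (by positivity)
      rw [div_le_iff₀ hT0]
      have h3 : 32 * δ / κ * (κ * (4 ^ e * a) / 2) = 16 * 4 ^ e * (δ * a) := by
        field_simp
        ring
      rw [h3]
      exact h1.trans h2
    have hcov : PS i (fun X => ¬ satC u X (TEST G.toList ψ T)) ≤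
        PS i (fun X => ¬ X.Nonempty) + (PS i (fun X => X.Nonempty ∧
          (Nat.card {x // x ∈ GBs ∧ ∃ v ∈ X, sd x v ≤ u} : ℝ) < κ * (4 ^ e * a)) +
          PS i (fun X => κ * (4 ^ e * a) / 2 ≤ (Set.ncard {x | x ∈ GBs ∧ B x X} : ℝ))) := by
      refine le_trans (hmono _ (fun X => ¬ X.Nonempty ∨ ((X.Nonempty ∧
          (Nat.card {x // x ∈ GBs ∧ ∃ v ∈ X, sd x v ≤ u} : ℝ) < κ * (4 ^ e * a)) ∨
          κ * (4 ^ e * a) / 2 ≤ (Set.ncard {x | x ∈ GBs ∧ B x X} : ℝ))) ?_) ?_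
      · intro X hX
        rw [(M1_sat hF1 u X G ψ T).1, not_le, hcardG] at hX
        by_cases hne : X.Nonempty
        · right
          by_cases hH : (Nat.card {x // x ∈ GBs ∧ ∃ v ∈ X, sd x v ≤ u} : ℝ) < κ * (4 ^ e * a)
          · left
            exact ⟨hne, hH⟩
          · right
            rw [not_lt] at hH
            have hc1 : Nat.card {x // x ∈ GBs ∧ ∃ v ∈ X, sd x v ≤ u} =
                Set.ncard {x | x ∈ GBs ∧ ∃ v ∈ X, sd x v ≤ u} :=
              Nat.card_coe_set_eq {x | x ∈ GBs ∧ ∃ v ∈ X, sd x v ≤ u}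
            have hc2 : Set.ncard {x | x ∈ GBs ∧ ∃ v ∈ X, sd x v ≤ u} ≤
                Set.ncard {x | x ∈ GBs ∧ (satC u X (fHit (M1_z u x)) ∧ satC u X (ψ (M1_z u x)))} +
                Set.ncard {x | x ∈ GBs ∧ B x X} := by
              refine le_trans (Set.ncard_le_ncard ?_ ((hfinS _).union (hfinS _))) (Set.ncard_union_le _ _)
              rintro x ⟨hx, hv⟩
              by_cases hs : satC u X (ψ (M1_z u x))
              · left
                exact ⟨hx, (hF2 u X (M1_z u x) x hu1 (hzx x hx).1).1.mpr hv, hs⟩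
              · right
                refine ⟨hx, ?_⟩
                rw [hB]
                exact ⟨hv, hs⟩
            have hlt : (Set.ncard {x | x ∈ GBs ∧ (satC u X (fHit (M1_z u x)) ∧
                satC u X (ψ (M1_z u x)))} : ℝ) < κ * (4 ^ e * a) / 2 := Nat.lt_ceil.mp hX
            have hc3 : (Nat.card {x // x ∈ GBs ∧ ∃ v ∈ X, sd x v ≤ u} : ℝ) ≤
                (Set.ncard {x | x ∈ GBs ∧ (satC u X (fHit (M1_z u x)) ∧ satC u X (ψ (M1_z u x)))} : ℝ) +
                (Set.ncard {x | x ∈ GBs ∧ B x X} : ℝ) := by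
              rw [hc1]
              exact_mod_cast hc2
            linarith
        · left
          exact hne
      · refine (hsub _ _).trans (add_le_add le_rfl (hsub _ _))
    have hfin := hcompl (fun X => satC u X (TEST G.toList ψ T))
    have h32 := hmarkov.trans hsum
    linarith
  · -- pivotal set
    obtain ⟨B, hB⟩ : ∃ B : V → Set V → Prop,
        B = fun x X => (∃ v ∈ X, sd x v ≤ 2 * u) ∧ satO u X (ψ (M1_z u x)) := ⟨_, rfl⟩
    have hmarkov := (hB3 i GBs B (κ * (4 ^ e * a) / 2) hT0).2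
    simp only [M1_nc] at hmarkov
    have hsum : (∑ x ∈ GBs, PPv i (B x)) / (κ * (4 ^ e * a) / 2) ≤ 32 * δ / κ := by
      have h1 : ∑ x ∈ GBs, PPv i (B x) ≤ ∑ x ∈ GBs, δ * a := by
        refine Finset.sum_le_sum fun x hx => ?_
        rw [hB]
        exact (hψ (M1_z u x) x (hzx x hx).1 hx).2
      rw [Finset.sum_const, nsmul_eq_mul] at h1
      have h2 : (GBs.card : ℝ) * (δ * a) ≤ 16 * 4 ^ e * (δ * a) :=
        mul_le_mul_of_nonneg_right hcard (by positivity)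
      rw [div_le_iff₀ hT0]
      have h3 : 32 * δ / κ * (κ * (4 ^ e * a) / 2) = 16 * 4 ^ e * (δ * a) := by
        field_simp
        ring
      rw [h3]
      exact h1.trans h2
    refine le_trans (hmono' _ _ ?_) (hmarkov.trans hsum)
    intro X hX
    rw [(M1_sat hF1 u X G ψ T).2, hcardG] at hX
    have h1 : κ * (4 ^ e * a) / 2 ≤ (T : ℝ) := Nat.le_ceil _
    refine h1.trans (Nat.cast_le.mpr (hX.trans (Set.ncard_le_ncard ?_ (hfinS _))))
    intro x hx
    refine ⟨hx.1, ?_⟩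
    rw [hB]
    exact ⟨(hF2 u X (M1_z u x) x hu1 (hzx x hx.1).1).2.1 hx.2.1, hx.2.2⟩

end TP
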