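import Pool.Agent.helper2.SP.SpecTA

/-!
# Project sp, part TA: module TA17 (three clusters against thick pairs)
-/

namespace TP.TA

open DP MeasureTheory

theorem TA17_BC (b : V → Bool) : BC (col b) := fun v => (col_br b v).symm

theorem TA17_wc {c c' : V → Bool} {x : V} {m n : ℕ} (h : ∀ v ∈ ann x m n, c v = c' v)
    (K : Set V) : WC c x m n K ↔ WC c' x m n K := by
  unfold WC
  have e : ∀ u v, Conn c false (ann x m n) u v ↔ Conn c' false (ann x m n) u v :=
    fun u v => Conn.congr h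
  simp only [e]

theorem TA17_thr {c c' : V → Bool} {x : V} {m n : ℕ} (h : ∀ v ∈ ann x m n, c v = c' v)
    (K : Set V) : Thr c x m n K ↔ Thr c' x m n K := by
  unfold Thr
  simp only [TA17_wc h]

theorem TA17_nw {c c' : V → Bool} {x : V} {m n : ℕ} (h : ∀ v ∈ ann x m n, c v = c' v) :
    nW c x m n = nW c' x m n := by
  classical
  unfold nW
  congr 1
  ext K
  simp only [Finset.mem_filter, TA17_wc h]

theorem TA17_te {c c' : V → Bool} {x : V} {m n : ℕ} (h : ∀ v ∈ ann x m n, c v = c' v) :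
    TE c x m n ↔ TE c' x m n := by
  unfold TE TC
  simp only [TA17_wc h]

theorem TA17_pr_mono {F G : Set (V → Bool)} (h : F ⊆ G) : Pr F ≤ Pr G := by
  have : IsProbabilityMeasure P1 := by unfold P1; infer_instance
  unfold Pr
  exact measureReal_mono h (measure_ne_top _ _)

theorem TA17_pr_nonneg (F : Set (V → Bool)) : 0 ≤ Pr F := by
  unfold Pr
  exact measureReal_nonneg

open Classical in
/-- The number of clusters on the event `p`. -/
noncomputable def TA17_f (x : V) (m n : ℕ) (p : (V → Bool) → Prop) (b : V → Bool) : ℝ :=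
  if p (col b) then (nW (col b) x m n : ℝ) else 0

/-- Its expectation, as a sum. -/
noncomputable def TA17_S (x : V) (m n : ℕ) (p : (V → Bool) → Prop) : ℝ :=
  ∑ K ∈ (N3_A x m n).powerset, Pr (Ev fun c => WC c x m n (K : Set V) ∧ p c)

open Classical in
theorem TA17_card (c : V → Bool) (x : V) (m n : ℕ) : nW c x m n =
    ((N3_A x m n).powerset.filter fun K : Finset V => WC c x m n (K : Set V)).card := by
  have e : (do
        let a ← (N3_A x m n).powerset
        pure (a : Set V) : Finset (Set V)) =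
      (N3_A x m n).powerset.image (fun a : Finset V => (a : Set V)) := by
    ext K
    simp [Finset.bind_def]
  unfold nW
  rw [e, Finset.filter_image, Finset.card_image_of_injective _ Finset.coe_injective]

theorem TA17_f_eq (x : V) (m n : ℕ) (p : (V → Bool) → Prop) (b : V → Bool) :
    TA17_f x m n p b = ∑ K ∈ (N3_A x m n).powerset,
      (Ev fun c => WC c x m n (K : Set V) ∧ p c).indicator (fun _ => (1 : ℝ)) b := by
  classical
  unfold TA17_f
  split_ifs with h
  · rw [TA17_card, Finset.card_filter, Nat.cast_sum]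
    refine Finset.sum_congr rfl fun K _ => ?_
    by_cases hK : WC (col b) x m n (K : Set V)
    · rw [Set.indicator_of_mem (show b ∈ Ev fun c => WC c x m n (K : Set V) ∧ p c from ⟨hK, h⟩)]
      simp [hK]
    · rw [Set.indicator_of_notMem (show b ∉ Ev fun c => WC c x m n (K : Set V) ∧ p c from
        fun h' => hK h'.1)]
      simp [hK]
  · symm
    refine Finset.sum_eq_zero fun K _ => ?_
    rw [Set.indicator_of_notMem (show b ∉ Ev fun c => WC c x m n (K : Set V) ∧ p c from
      fun h' => h h'.2)]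

theorem TA17_meas (x : V) (m n : ℕ) (K : Set V) (p : (V → Bool) → Prop)
    (hp : Loc (Ev p) Set.univ) : MeasurableSet (Ev fun c => WC c x m n K ∧ p c) := by
  have h1 : Loc (Ev fun c => WC c x m n K) (ann x m n) :=
    Loc.ev (DP.ann_finite x m n) fun c c' h => TA17_wc h K
  exact (h1.inter hp).measurableSet

theorem TA17_int (x : V) (m n : ℕ) (p : (V → Bool) → Prop) (hp : Loc (Ev p) Set.univ) :
    Integrable (TA17_f x m n p) P1 ∧ ∫ b, TA17_f x m n p b ∂P1 = TA17_S x m n p := by
  have : IsProbabilityMeasure P1 := by unfold P1; infer_instance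
  have hf : TA17_f x m n p = fun b => ∑ K ∈ (N3_A x m n).powerset,
      (Ev fun c => WC c x m n (K : Set V) ∧ p c).indicator (fun _ => (1 : ℝ)) b :=
    funext fun b => TA17_f_eq x m n p b
  rw [hf]
  have hi : ∀ K ∈ (N3_A x m n).powerset, Integrable (fun b =>
      (Ev fun c => WC c x m n (K : Set V) ∧ p c).indicator (fun _ => (1 : ℝ)) b) P1 :=
    fun K _ => (integrable_const (1 : ℝ)).indicator (TA17_meas x m n _ p hp)
  refine ⟨integrable_finsetSum _ hi, ?_⟩
  rw [integral_finsetSum _ hi]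
  unfold TA17_S
  refine Finset.sum_congr rfl fun K _ => ?_
  rw [integral_indicator_const _ (TA17_meas x m n _ p hp)]
  simp [Pr]

open Classical in
theorem TA17_const (p : (V → Bool) → Prop) (hp : Loc (Ev p) Set.univ) (k : ℝ) :
    Integrable (fun b => if p (col b) then k else 0) P1 ∧
      ∫ b, (if p (col b) then k else 0) ∂P1 = k * Pr (Ev p) := by
  have : IsProbabilityMeasure P1 := by unfold P1; infer_instance
  have hf : (fun b => if p (col b) then k else 0) = fun b => (Ev p).indicator (fun _ => k) b := by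
    funext b
    by_cases h : p (col b)
    · rw [if_pos h, Set.indicator_of_mem (show b ∈ Ev p from h)]
    · rw [if_neg h, Set.indicator_of_notMem (show b ∉ Ev p from h)]
  rw [hf]
  refine ⟨(integrable_const k).indicator hp.measurableSet, ?_⟩
  rw [integral_indicator_const _ hp.measurableSet]
  simp [Pr, mul_comm]

/-- comparison of two expectations -/
theorem TA17_mono {x : V} {m n m₁ n₁ : ℕ} {p q : (V → Bool) → Prop} (hp : Loc (Ev p) Set.univ)
    (hq : Loc (Ev q) Set.univ)
    (h : ∀ c, p c → q c ∧ nW c x m n ≤ nW c x m₁ n₁) : TA17_S x m n p ≤ TA17_S x m₁ n₁ q := by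
  classical
  obtain ⟨i1, e1⟩ := TA17_int x m n p hp
  obtain ⟨i2, e2⟩ := TA17_int x m₁ n₁ q hq
  rw [← e1, ← e2]
  refine integral_mono i1 i2 fun b => ?_
  show TA17_f x m n p b ≤ TA17_f x m₁ n₁ q b
  unfold TA17_f
  by_cases h1 : p (col b)
  · obtain ⟨h2, h3⟩ := h _ h1
    rw [if_pos h1, if_pos h2]
    exact_mod_cast h3
  · rw [if_neg h1]
    split_ifs
    · positivity
    · exact le_rfl

/-- upper bound of an expectation -/
theorem TA17_upper {x : V} {m n : ℕ} {p : (V → Bool) → Prop} (hp : Loc (Ev p) Set.univ)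
    (h4 : Loc (Ev fun c => 4 ≤ nW c x m n) Set.univ) :
    TA17_S x m n p ≤ 3 * Pr (Ev p) + TA17_S x m n (fun c => 4 ≤ nW c x m n) := by
  classical
  obtain ⟨i1, e1⟩ := TA17_int x m n p hp
  obtain ⟨i2, e2⟩ := TA17_int x m n _ h4
  obtain ⟨i3, e3⟩ := TA17_const p hp 3
  rw [← e1, ← e2, ← e3, ← integral_add i3 i2]
  refine integral_mono i1 (i3.add i2) fun b => ?_
  show TA17_f x m n p b ≤ (if p (col b) then (3 : ℝ) else 0) +
    TA17_f x m n (fun c => 4 ≤ nW c x m n) b
  unfold TA17_f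
  by_cases h1 : p (col b)
  · rw [if_pos h1, if_pos h1]
    by_cases h2 : 4 ≤ nW (col b) x m n
    · rw [if_pos h2]
      linarith
    · rw [if_neg h2]
      have : nW (col b) x m n ≤ 3 := by omega
      have h3 : (nW (col b) x m n : ℝ) ≤ 3 := by exact_mod_cast this
      linarith
  · rw [if_neg h1, if_neg h1]
    split_ifs
    · positivity
    · simp

/-- lower bound of an expectation -/
theorem TA17_lower {x : V} {m n : ℕ} (h3 : Loc (Ev fun c => 3 ≤ nW c x m n) Set.univ) :
    3 * Pr (Ev fun c => 3 ≤ nW c x m n) ≤ TA17_S x m n (fun c => 3 ≤ nW c x m n) := by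
  classical
  obtain ⟨i1, e1⟩ := TA17_int x m n _ h3
  obtain ⟨i3, e3⟩ := TA17_const _ h3 3
  rw [← e1, ← e3]
  refine integral_mono i3 i1 fun b => ?_
  beta_reduce
  unfold TA17_f
  by_cases h2 : 3 ≤ nW (col b) x m n
  · rw [if_pos h2, if_pos h2]
    exact_mod_cast h2
  · rw [if_neg h2, if_neg h2]

/-- The sum for thick pairs. -/
noncomputable def TA17_T (x : V) (m n : ℕ) : ℝ :=
  ∑ K ∈ (N3_A x m n).powerset,
    Pr (Ev fun c => WC c x m n (K : Set V) ∧ ∃ K' : Set V, TC c x m n (K : Set V) K')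

/-- A white crossing cluster is a finite subset of the annulus. -/
theorem TA17_fin (h1 : TA1_stmt) {c : V → Bool} {x : V} {m n : ℕ} {K : Set V}
    (hK : WC c x m n K) : ∃ F ∈ (N3_A x m n).powerset, (F : Set V) = K := by
  have hsub := ((h1.1 c x m n K hK).1 : K ⊆ ann x m n)
  have hfin : K.Finite := (DP.ann_finite x m n).subset hsub
  refine ⟨hfin.toFinset, ?_, by simp⟩
  rw [Finset.mem_powerset]
  intro v hv
  rw [N3_memA]
  exact hsub (by simpa using hv)

theorem TA17_N3 (hB : Bflip_stmt) (h15 : TA15_stmt) (x : V) (m n : ℕ) :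
    Pr (Ev fun c => Three c x m n) = Pr (Ev fun c => 3 ≤ nW c x m n) := by
  have e1 : (Ev fun c => 3 ≤ nW c x m n) =
      {b | (fun v => !(b ((Equiv.refl V) v))) ∈ Ev fun c => Three c x m n} := by
    ext b
    show 3 ≤ nW (col b) x m n ↔ Three (col fun v => !(b v)) x m n
    rw [h15.1]
    rfl
  rw [e1, hB (Equiv.refl V) _ _ (N3_three_loc x m n)]

theorem TA17 (hi : Bindep_stmt) (hz : Bzero_stmt) (hB : Bflip_stmt) (h1 : TA1_stmt)
    (h2 : TA2_stmt) (h3 : TA3_stmt) (h4 : TA4_stmt) (h14 : TA14_stmt) (h15 : TA15_stmt)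
    (h16 : TA16_stmt) : TA17_stmt := by
  -- locality
  have locN : ∀ (x : V) (m n k : ℕ), Loc (Ev fun c => k ≤ nW c x m n) (ann x m n) := fun x m n k =>
    Loc.ev (DP.ann_finite x m n) fun c c' h => by rw [TA17_nw h]
  have locN' : ∀ (x : V) (m n k : ℕ), Loc (Ev fun c => k ≤ nW c x m n) Set.univ :=
    fun x m n k => (locN x m n k).mono (Set.subset_univ _)
  have locT : ∀ (x : V) (m n : ℕ), Loc (Ev fun c => TE c x m n) (ann x m n) := fun x m n =>
    Loc.ev (DP.ann_finite x m n) fun c c' h => TA17_te h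
  have locThr : ∀ (x : V) (m n : ℕ) (K : Set V),
      Loc (Ev fun c => Thr c x m n K) Set.univ := fun x m n K =>
    (Loc.ev (DP.ann_finite x m n) fun c c' h => TA17_thr h K).mono (Set.subset_univ _)
  have locW : ∀ (x : V) (m n : ℕ) (K : Set V), Loc (Ev fun c => WC c x m n K) (ann x m n) :=
    fun x m n K => Loc.ev (DP.ann_finite x m n) fun c c' h => TA17_wc h K
  -- the case of more than three clusters
  have hfour : ∀ (x : V) (m n : ℕ), Pr (Ev fun c => reach c false x m n) ≤ 1 / 4 →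
      TA17_S x m n (fun c => 4 ≤ nW c x m n) ≤ 1 / 2 * Pr (Ev fun c => 3 ≤ nW c x m n) := by
    intro x m n hr
    have := h16 x m n (1 / 4) hr (by norm_num)
    unfold TA17_S
    linarith
  have hup : ∀ (x : V) (m n : ℕ), Pr (Ev fun c => reach c false x m n) ≤ 1 / 4 →
      TA17_S x m n (fun c => 3 ≤ nW c x m n) ≤ 7 / 2 * Pr (Ev fun c => 3 ≤ nW c x m n) := by
    intro x m n hr
    have e1 := TA17_upper (x := x) (m := m) (n := n) (locN' x m n 3) (locN' x m n 4)
    have e2 := hfour x m n hr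
    linarith
  -- thick pairs and three clusters
  have hTS : ∀ (x : V) (m n : ℕ), Even (x.1 + x.2) → 1 ≤ m → m < n →
      TA17_T x m n ≤ TA17_S x m n (fun c => 3 ≤ nW c x m n) := by
    intro x m n hx hm hmn
    unfold TA17_T TA17_S
    refine Finset.sum_le_sum fun K _ => ?_
    have e1 : Pr (Ev fun c => WC c x m n (K : Set V) ∧ ∃ K' : Set V, TC c x m n (K : Set V) K') ≤
        Pr (Ev fun c => WC c x m n (K : Set V) ∧
          (fun c => Thr c x m n (K : Set V)) (Th x m n (K : Set V) c)) := by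
      refine TA17_pr_mono ?_
      rintro b ⟨hb1, K', hb2⟩
      exact ⟨hb1, h4 _ x m n _ K' hx hm hmn (TA17_BC b) hb2⟩
    rw [h14 x m n K _ (locThr x m n _)] at e1
    refine e1.trans (TA17_pr_mono ?_)
    rintro b ⟨hb1, hb2⟩
    exact ⟨hb1, (h15.2.1 _ x m n _ hb1).2 hb2⟩
  have hST : ∀ (x : V) (m n : ℕ), Even (x.1 + x.2) → 1 ≤ m → m < n →
      TA17_S x m n (fun c => 3 ≤ nW c x m n) ≤ TA17_T x m n := by
    intro x m n hx hm hmn
    unfold TA17_T TA17_S
    refine Finset.sum_le_sum fun K _ => ?_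
    have e1 : Pr (Ev fun c => WC c x m n (K : Set V) ∧ 3 ≤ nW c x m n) ≤
        Pr (Ev fun c => WC c x m n (K : Set V) ∧ (fun c => Thr c x m n (K : Set V)) c) := by
      refine TA17_pr_mono ?_
      rintro b ⟨hb1, hb2⟩
      exact ⟨hb1, (h15.2.1 _ x m n _ hb1).1 hb2⟩
    rw [← h14 x m n K _ (locThr x m n _)] at e1
    refine e1.trans (TA17_pr_mono ?_)
    rintro b ⟨hb1, hb2⟩
    obtain ⟨q1, q2, q3⟩ := h2.1 (col b) x m n (K : Set V) (TA17_BC b)
    obtain ⟨q4, -, -⟩ := q3 hb1
    have := h3 (Th x m n (K : Set V) (col b)) x m n (K : Set V) hx hm hmn q1 q4 hb2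
    rw [q2] at this
    exact ⟨hb1, this⟩
  have hTTE : ∀ (x : V) (m n : ℕ), Pr (Ev fun c => reach c false x m n) ≤ 1 / 4 →
      TA17_T x m n ≤ 3 * Pr (Ev fun c => TE c x m n) +
        1 / 2 * Pr (Ev fun c => 3 ≤ nW c x m n) := by
    intro x m n hr
    have e1 : TA17_T x m n ≤ TA17_S x m n (fun c => TE c x m n) := by
      unfold TA17_T TA17_S
      refine Finset.sum_le_sum fun K _ => TA17_pr_mono ?_
      rintro b ⟨hb1, K', hb2⟩
      exact ⟨hb1, _, K', hb2⟩
    have e2 := TA17_upper (x := x) (m := m) (n := n)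
      ((locT x m n).mono (Set.subset_univ _)) (locN' x m n 4)
    have e3 := hfour x m n hr
    linarith
  have hTET : ∀ (x : V) (m n : ℕ), Pr (Ev fun c => TE c x m n) ≤ TA17_T x m n := by
    intro x m n
    have : IsProbabilityMeasure P1 := by unfold P1; infer_instance
    have hsub : (Ev fun c => TE c x m n) ⊆ ⋃ K ∈ (N3_A x m n).powerset,
        (Ev fun c => WC c x m n (K : Set V) ∧ ∃ K' : Set V, TC c x m n (K : Set V) K') := by
      rintro b ⟨K, K', hb⟩
      obtain ⟨F, hF, hFK⟩ := TA17_fin h1 hb.1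
      refine Set.mem_biUnion hF ?_
      subst hFK
      exact ⟨hb.1, K', hb⟩
    unfold TA17_T Pr
    exact (measureReal_mono hsub (measure_ne_top _ _)).trans (measureReal_biUnion_finset_le _ _)
  constructor
  · intro x m n hx hm hmn hr
    rw [TA17_N3 hB h15]
    have e1 := TA17_lower (locN' x m n 3)
    have e2 := hST x m n hx hm hmn
    have e3 := hTTE x m n hr
    have e4 := TA17_pr_nonneg (Ev fun c => TE c x m n)
    have e5 := TA17_pr_nonneg (Ev fun c => 3 ≤ nW c x m n)
    linarith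
  · intro x m m₁ n₁ n B X hx hm hmm hmn hnn hr hdis hX
    have hX' : Loc (Ev X) Set.univ := hX.mono (Set.subset_univ _)
    have hm1 : 1 ≤ m₁ := hm.trans hmm
    have hmn' : m < n := by omega
    rw [TA17_N3 hB h15]
    set p3 := Pr (Ev fun c => 3 ≤ nW c x m₁ n₁) with hp3
    have hp30 : 0 ≤ p3 := TA17_pr_nonneg _
    have hpX : 0 ≤ Pr (Ev X) := TA17_pr_nonneg _
    -- first part
    have hE0 : Pr (Ev fun c => TE c x m₁ n₁ ∧ X c) ≤ 7 / 2 * p3 * Pr (Ev X) := by
      have e1 : Pr (Ev fun c => TE c x m₁ n₁ ∧ X c) =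
          Pr (Ev fun c => TE c x m₁ n₁) * Pr (Ev X) := N3_indep hi hz (locT x m₁ n₁) hX hdis
      rw [e1]
      refine mul_le_mul_of_nonneg_right ?_ hpX
      exact (hTET x m₁ n₁).trans ((hTS x m₁ n₁ hx hm1 hmn).trans (hup x m₁ n₁ hr))
    -- second part
    have hE1 : Pr (Ev fun c => ∃ K K' : Set V, TC c x m n K K' ∧ X (Th x m n K c)) ≤
        7 / 2 * p3 * Pr (Ev X) := by
      have : IsProbabilityMeasure P1 := by unfold P1; infer_instance
      have hsub : (Ev fun c => ∃ K K' : Set V, TC c x m n K K' ∧ X (Th x m n K c)) ⊆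
          ⋃ K ∈ (N3_A x m n).powerset, (Ev fun c => WC c x m n (K : Set V) ∧
            (fun c => Thr c x m n (K : Set V) ∧ X c) (Th x m n (K : Set V) c)) := by
        rintro b ⟨K, K', hb, hbX⟩
        obtain ⟨F, hF, hFK⟩ := TA17_fin h1 hb.1
        refine Set.mem_biUnion hF ?_
        subst hFK
        exact ⟨hb.1, h4 _ x m n _ K' hx hm hmn' (TA17_BC b) hb, hbX⟩
      have e1 : Pr (Ev fun c => ∃ K K' : Set V, TC c x m n K K' ∧ X (Th x m n K c)) ≤
          ∑ K ∈ (N3_A x m n).powerset, Pr (Ev fun c => WC c x m n (K : Set V) ∧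
            (fun c => Thr c x m n (K : Set V) ∧ X c) (Th x m n (K : Set V) c)) := by
        unfold Pr
        exact (measureReal_mono hsub (measure_ne_top _ _)).trans (measureReal_biUnion_finset_le _ _)
      have hLocTX : ∀ K : Finset V, Loc (Ev fun c => Thr c x m n (K : Set V) ∧ X c) Set.univ := by
        intro K
        exact ((locThr x m n (K : Set V)).inter hX').mono (Set.subset_univ _)
      have e2 : ∑ K ∈ (N3_A x m n).powerset, Pr (Ev fun c => WC c x m n (K : Set V) ∧
            (fun c => Thr c x m n (K : Set V) ∧ X c) (Th x m n (K : Set V) c)) ≤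
          TA17_S x m n (fun c => 3 ≤ nW c x m n ∧ X c) := by
        unfold TA17_S
        refine Finset.sum_le_sum fun K _ => ?_
        rw [h14 x m n K _ (hLocTX K)]
        refine TA17_pr_mono ?_
        rintro b ⟨hb1, hb2, hb3⟩
        exact ⟨hb1, (h15.2.1 _ x m n _ hb1).2 hb2, hb3⟩
      have l1 : Loc (Ev fun c => 3 ≤ nW c x m n ∧ X c) Set.univ :=
        ((locN' x m n 3).inter hX').mono (Set.subset_univ _)
      have l2 : Loc (Ev fun c => 3 ≤ nW c x m₁ n₁ ∧ X c) Set.univ :=
        ((locN' x m₁ n₁ 3).inter hX').mono (Set.subset_univ _)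
      have e3 : TA17_S x m n (fun c => 3 ≤ nW c x m n ∧ X c) ≤
          TA17_S x m₁ n₁ (fun c => 3 ≤ nW c x m₁ n₁ ∧ X c) := by
        refine TA17_mono l1 l2 fun c hc => ?_
        have h := h15.2.2.1 c x m m₁ n₁ n hmm hmn.le hnn
        exact ⟨⟨hc.1.trans h, hc.2⟩, h⟩
      have e4 : TA17_S x m₁ n₁ (fun c => 3 ≤ nW c x m₁ n₁ ∧ X c) =
          TA17_S x m₁ n₁ (fun c => 3 ≤ nW c x m₁ n₁) * Pr (Ev X) := by
        unfold TA17_S
        rw [Finset.sum_mul]
        refine Finset.sum_congr rfl fun K _ => ?_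
        have hl : Loc (Ev fun c => WC c x m₁ n₁ (K : Set V) ∧ 3 ≤ nW c x m₁ n₁) (ann x m₁ n₁) := by
          have := (locW x m₁ n₁ (K : Set V)).inter (locN x m₁ n₁ 3)
          rw [Set.union_self] at this
          exact this
        rw [← N3_indep hi hz hl hX hdis]
        congr 1
        ext b
        constructor
        · rintro ⟨g1, g2, g3⟩
          exact ⟨⟨g1, g2⟩, g3⟩
        · rintro ⟨⟨g1, g2⟩, g3⟩
          exact ⟨g1, g2, g3⟩
      have e5 := mul_le_mul_of_nonneg_right (hup x m₁ n₁ hr) hpX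
      linarith
    -- conclusion
    have hsub : (Ev fun c => ∃ K K' : Set V, TC c x m n K K' ∧
        (X c ∨ X (Th x m n K c) ∨ X (Th x m n K' c))) ⊆
        (Ev fun c => TE c x m₁ n₁ ∧ X c) ∪
          (Ev fun c => ∃ K K' : Set V, TC c x m n K K' ∧ X (Th x m n K c)) := by
      rintro b ⟨K, K', hb, hX0 | hX1 | hX2⟩
      · left
        exact ⟨h15.2.2.2 _ x m m₁ n₁ n hmm hmn.le hnn ⟨K, K', hb⟩, hX0⟩
      · right
        exact ⟨K, K', hb, hX1⟩
      · right
        exact ⟨K', K, (h2.2 _ x m n K K' (TA17_BC b) hb).1, hX2⟩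
    have : IsProbabilityMeasure P1 := by unfold P1; infer_instance
    have hun : Pr ((Ev fun c => TE c x m₁ n₁ ∧ X c) ∪
          (Ev fun c => ∃ K K' : Set V, TC c x m n K K' ∧ X (Th x m n K c))) ≤
        Pr (Ev fun c => TE c x m₁ n₁ ∧ X c) +
          Pr (Ev fun c => ∃ K K' : Set V, TC c x m n K K' ∧ X (Th x m n K c)) := by
      unfold Pr
      exact measureReal_union_le _ _
    have hfin := (TA17_pr_mono hsub).trans hun
    have hpos : 0 ≤ p3 * Pr (Ev X) := mul_nonneg hp30 hpX
    nlinarith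

end TP.TA
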